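import Pool.Agent.Helper60.UG.Games

/-!
# Unique games are hard for randomised circuits with unreliable negations, for every advantage

A unique game with left and right vertex sets of size `N` and alphabet `[q]` is given by bits: for all
left vertices `u`, right vertices `v`, permutations `π` of the alphabet and tags `j < K`, the bit of
the position `(u, v, π, j)` tells whether the game has the constraint `π (label u) = label v` with
the tag `j`. Only games without two tags at the same constraint are considered; the tag has no
meaning.

The model: randomised circuits whose inputs are these bits and their negations, with gates that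
compute arbitrary nondecreasing real functions of two arguments. All circuits with AND, OR and NOT
gates can be brought into this form by doubling their size. No bound on the depth is assumed. A
randomised circuit is a finite nonempty family of circuits from which one is chosen uniformly at
random.

Faults: each negated input (the information that there is no such constraint at a position) is stuck
at `0`, independently with probability `1 / D`. The other inputs are reliable.

Result: let `q ≥ 2` and `1 / q < δ` (of interest for `δ < 1`). For all large `N` there is a number `m` of constraints such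
that for all `ε ≥ N ^ (-1 / 139)`, all `D`, all `0 < g ≤ 1` and all
`K ≥ D (2 log N + log q! + log (2 / g))` the following holds. If a randomised circuit with at most
`s` gates accepts, under faults, the games with `m` constraints and value at most `δ` with
probability at least `b + g`, and, without faults, the games with at least `m` constraints, of which
some labelling violates at most `ε m`, with probability at most `b`, then
`g ^ 2 * 2 ^ (N ^ (1 / 139)) ≤ 40 (s + 1)`.

* So exponential size is necessary if an arbitrarily small constant fraction `1 / D` of the negated
  inputs is unreliable, even for the advantage `g = 2 ^ (- N ^ c)`, `c < 1 / 139`; and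
  `K = O (D log N)` tags are enough if `1 / g` is bounded by a polynomial in `N`.
* For `D = 1` all negated inputs are faulty: this is the case of monotone circuits. The starting
  result `MonotoneCircuits` (probabilities `2 / 3` and `1 / 3`) is used in the proof.

The proof: the constraints of a game without tags get random tags. The tagged game shows only the
tags of its constraints, and the positions that the other constraints would get are as good as random
faulty inputs. So all negated inputs that depend on the game without tags can be replaced by `0`, at
the cost of half of the advantage, and this gives a monotone randomised circuit for the games without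
tags. The number of the accepting circuits among `O (1 / g ^ 2)` independent ones is computed by
monotone real gates, and by Chebyshev's inequality it tells the games apart with probability `2 / 3`.
-/

set_option autoImplicit false

namespace Pool.Agent.Results.MP_325f1f_lc.FaultyNegations

open Finset

/-- A circuit with the gates `0, ..., s - 1` whose inputs are the bits of the positions `e` in `E` and
their negations: `(e, true)` stands for the bit of `e` and `(e, false)` for its negation. Gate `i`
has `w i ≤ 2` inputs, namely `a i j`, each a literal (`0` or `1`) or an earlier gate; it computes a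
nondecreasing function `op i` of real numbers, and its value on the values `y` of the literals is
`val y i`. The circuit accepts if the value of gate `out` is at least `τ`. -/
structure LiteralCircuit (E : Type) where
  s : ℕ
  w : Fin s → ℕ
  a : (i : Fin s) → Fin (w i) → (E × Bool) ⊕ Fin s
  op : (i : Fin s) → (Fin (w i) → ℝ) → ℝ
  val : (E × Bool → Bool) → Fin s → ℝ
  out : Fin s
  τ : ℝ
  earlier : ∀ i j m, a i j = Sum.inr m → m < i
  mono : ∀ i, w i ≤ 2 ∧ Monotone (op i)
  spec : ∀ y i, val y i = op i (fun j =>
    Sum.elim (fun p => if y p = true then (1 : ℝ) else 0) (val y) (a i j))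

/-- The positions `((u, v, π), j)`: a constraint between the left vertex `u` and the right vertex `v`
with the tag `j`, which demands that `π` maps the label of `u` to the label of `v`. -/
abbrev Position (N q K : ℕ) : Type := (Fin N × Fin N × Equiv.Perm (Fin q)) × Fin K

/-- The labelling `f` of the left and `h` of the right vertices satisfies the constraint. -/
def Satisfies {N q K : ℕ} (f h : Fin N → Fin q) (e : Position N q K) : Prop :=
  e.1.2.2 (f e.1.1) = h e.1.2.1

/-- The game (the set of the positions `e` with `x e = true`) has no constraint with two tags. -/
def IsGame {N q K : ℕ} (x : Position N q K → Bool) : Prop :=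
  ∀ e e', x e = true → x e' = true → e.1 = e'.1 → e = e'

open Classical in
/-- Games with exactly `m` constraints of which every labelling satisfies at most `δ m`. -/
def ValueAtMost {N q K : ℕ} (m : ℕ) (δ : ℝ) (x : Position N q K → Bool) : Prop :=
  IsGame x ∧ (univ.filter fun e => x e = true).card = m ∧ ∀ f h : Fin N → Fin q,
    ((univ.filter fun e => x e = true ∧ Satisfies f h e).card : ℝ) ≤ δ * m

open Classical in
/-- Games with at least `m` constraints of which some labelling violates at most `ε m`. -/
def AlmostSatisfiable {N q K : ℕ} (m : ℕ) (ε : ℝ) (x : Position N q K → Bool) : Prop :=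
  IsGame x ∧ m ≤ (univ.filter fun e => x e = true).card ∧ ∃ f h : Fin N → Fin q,
    ((univ.filter fun e => x e = true ∧ ¬ Satisfies f h e).card : ℝ) ≤ ε * m

open Classical in
/-- The values of the literals on the game `x` if the negated inputs of the positions in `Z` are
stuck at `0`. -/
noncomputable def literals {E : Type} (x : E → Bool) (Z : Set E) : E × Bool → Bool :=
  fun p => if p.2 = true then x p.1 else if p.1 ∈ Z then false else !x p.1

/-- The circuit accepts the game `x` if the negated inputs of the positions in `Z` are stuck at
`0`. -/
def LiteralCircuit.Accepts {E : Type} (C : LiteralCircuit E) (x : E → Bool) (Z : Set E) : Prop :=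
  C.τ ≤ C.val (literals x Z) C.out

/-- The probability that the game `x` is accepted by a circuit that is chosen uniformly at random
from the family `C`, without faults. -/
noncomputable def acceptance {E R : Type} (C : R → LiteralCircuit E) (x : E → Bool) : ℝ :=
  (Nat.card {ρ : R // (C ρ).Accepts x ∅} : ℝ) / Nat.card R

/-- The probability that the game `x` is accepted by a circuit that is chosen uniformly at random
from the family `C`, if each negated input is stuck at `0` independently with probability `1 / D`
(each position `e` gets a random number `f e` from `0` to `D - 1`, and `0` means a fault). -/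
noncomputable def faultyAcceptance {E R : Type} (C : R → LiteralCircuit E) (D : ℕ)
    (x : E → Bool) : ℝ :=
  (Nat.card {v : R × (E → Fin D) // (C v.1).Accepts x {e | (v.2 e : ℕ) = 0}} : ℝ) /
    Nat.card (R × (E → Fin D))

/-- Let `q ≥ 2` and `1 / q < δ`. For all large `N` there is `m ≥ 1` such that for all
`ε ≥ N ^ (-1 / 139)`, `D ≥ 1`, `0 < g ≤ 1`, all real `b` and all
`K ≥ D (2 log N + log q! + log (2 / g))` the following holds. If a finite nonempty family of circuits
on literals with nondecreasing real gates of fan-in at most two and with at most `s` gates accepts
every game with exactly `m` constraints and value at most `δ` with probability at least `b + g`, even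
if each negated input is stuck at `0` independently with probability `1 / D`, and every game with at
least `m` constraints, of which some labelling violates at most `ε m`, with probability at most `b`
(without faults), then `g ^ 2 * 2 ^ (N ^ (1 / 139)) ≤ 40 (s + 1)`. -/
theorem result (q : ℕ) (hq : 2 ≤ q) (δ : ℝ) (hδ : 1 / (q : ℝ) < δ) :
    ∃ N0 : ℕ, ∀ N : ℕ, N0 ≤ N → ∃ m : ℕ, 0 < m ∧
      ∀ ε : ℝ, (N : ℝ) ^ (-(1 / 139) : ℝ) ≤ ε → ∀ (D K : ℕ) (b g : ℝ), 1 ≤ D → 0 < g → g ≤ 1 →
      D * (2 * Real.log N + Real.log (q.factorial : ℝ) + Real.log (2 / g)) ≤ K →
      ∀ (R : Type) [Finite R] [Nonempty R] (C : R → LiteralCircuit (Position N q K)) (s : ℕ),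
        (∀ ρ, (C ρ).s ≤ s) →
        (∀ x, ValueAtMost m δ x → b + g ≤ faultyAcceptance C D x) →
        (∀ x, AlmostSatisfiable m ε x → acceptance C x ≤ b) →
        g ^ 2 * (2 : ℝ) ^ ((N : ℝ) ^ (1 / 139 : ℝ)) ≤ 40 * (s + 1) := by
  classical
  obtain ⟨N0, H⟩ := Pool.Agent.Helper60.UG.ug_fault q (by omega) δ hδ
  refine ⟨N0, fun N hN => ?_⟩
  obtain ⟨m, hm, H⟩ := H N hN
  refine ⟨m, hm, ?_⟩
  intro ε hε D K b g hD hg hg1 hK R _ _ C s hs h1 h2
  let _ : Fintype R := Fintype.ofFinite R
  have hR : (0 : ℝ) < Fintype.card R := by exact_mod_cast Fintype.card_pos
  have hDR : (0 : ℝ) < D := by exact_mod_cast hD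
  have hlit : ∀ (x : Position N q K → Bool) (Z : Set (Position N q K)),
      Pool.Agent.Y630.TF.lit x Z = literals x Z := by
    intro x Z
    funext p
    unfold Pool.Agent.Y630.TF.lit literals
    by_cases hp : p.2 = true
    · rw [if_pos hp, if_pos hp]
    · rw [if_neg hp, if_neg hp]
      by_cases hZ : p.1 ∈ Z
      · simp [hZ]
      · simp [hZ]
  set C' : R → Pool.Agent.W969.MC.RC (Position N q K × Bool) := fun ρ => ⟨(C ρ).s, ∅, (C ρ).w,
    (C ρ).a, (C ρ).op, fun _ _ => 0, (C ρ).val, (C ρ).out, (C ρ).τ, (C ρ).earlier,
    fun i _ => (C ρ).mono i, fun i hi => absurd hi (Finset.notMem_empty i), (C ρ).spec⟩ with hC'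
  refine H ε hε D K b g hD hg hg1 hK R C' s (fun _ => rfl) hs (fun x hx => ?_) (fun x hx => ?_)
  · have h3 := h1 x ⟨hx.1, by convert hx.2.1, fun f h => by
      refine le_trans (le_of_eq ?_) (hx.2.2 f h)
      norm_cast⟩
    unfold faultyAcceptance at h3
    rw [le_div_iff₀ (by
      rw [Nat.card_eq_fintype_card, Fintype.card_prod, Fintype.card_fun, Fintype.card_fin]
      push_cast
      positivity)] at h3
    rw [Nat.card_eq_fintype_card (α := R × (Position N q K → Fin D)), Fintype.card_prod,
      Fintype.card_fun, Fintype.card_fin] at h3
    refine (le_of_eq ?_).trans (h3.trans (le_of_eq ?_))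
    · push_cast
      rfl
    congr 1
    show Nat.card ↥{v : R × (Position N q K → Fin D) |
      (C v.1).Accepts x {c | (v.2 c : ℕ) = 0}} = _
    rw [Nat.card_coe_set_eq]
    congr 1
    ext v
    show (C v.1).τ ≤ (C v.1).val (literals x {c | (v.2 c : ℕ) = 0}) (C v.1).out ↔
      (C v.1).τ ≤ (C v.1).val (Pool.Agent.Y630.TF.lit x (Pool.Agent.Y630.NW.Flt v.2)) (C v.1).out
    rw [hlit]
    rfl
  · have h3 := h2 x ⟨hx.1, by convert hx.2.1, by
      obtain ⟨-, -, f, h, hfh⟩ := hx
      refine ⟨f, h, le_trans (le_of_eq ?_) hfh⟩
      norm_cast⟩
    unfold acceptance at h3
    rw [div_le_iff₀ (by rw [Nat.card_eq_fintype_card]; exact hR),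
      Nat.card_eq_fintype_card (α := R)] at h3
    refine (le_of_eq ?_).trans h3
    congr 1
    show _ = Nat.card ↥{ρ : R | (C ρ).Accepts x ∅}
    rw [Nat.card_coe_set_eq]
    congr 1
    ext ρ
    show (C ρ).τ ≤ (C ρ).val (Pool.Agent.Y630.TF.lit x ∅) (C ρ).out ↔
      (C ρ).τ ≤ (C ρ).val (literals x ∅) (C ρ).out
    rw [hlit]

end Pool.Agent.Results.MP_325f1f_lc.FaultyNegations
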